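import Pool.Agent.Helper11.MT7.PS
import Pool.Agent.Helper40.MT.MainC

/-!
# The main theorem for distinct Jordan blocks (MAIN7)
-/

set_option autoImplicit false

open NumberField MU

namespace MT

namespace Ps7

open Matrix MT.Psr

variable {K : Type*} [Field K] {n : ℕ}

/-- the multiplier of a pseudo-reflection -/
lemma mult_one {psi g : Matrix (Fin n) (Fin n) K} (hn : 3 ≤ n) (hdet : psi.det ≠ 0) {c : K}
    (hg : g.transpose * psi * g = c • psi) (h : (g - 1).rank = 1) : c = 1 := by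
  by_contra hc
  obtain ⟨u, z, -, -, h1⟩ := rank_one h
  have hgm : g = 1 + vecMulVec u z := by rw [← h1]; abel
  set p : Fin n → K := psi *ᵥ u with hp
  set q : Fin n → K := u ᵥ* psi with hq
  have h2 : (c - 1) • psi = vecMulVec z (q + (q ⬝ᵥ u) • z) + vecMulVec p z := by
    have h3 : (vecMulVec u z).transpose = vecMulVec z u := by
      ext i j; simp [vecMulVec_apply, mul_comm]
    have h4 : vecMulVec z u * psi = vecMulVec z q := by
      rw [vecMulVec_mul, hq]
    have h5 : psi * vecMulVec u z = vecMulVec p z := mul_vecMulVec' _ _ _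
    have h6 : g.transpose * psi * g = psi + vecMulVec z q + vecMulVec p z +
        (q ⬝ᵥ u) • vecMulVec z z := by
      rw [hgm, Matrix.transpose_add, Matrix.transpose_one, h3, add_mul, add_mul, mul_add, mul_add,
        one_mul, mul_one, mul_one, h4, h5, vmv_mul_vmv]
      abel
    rw [hg] at h6
    rw [sub_smul, one_smul, h6]
    ext i j
    simp only [Matrix.sub_apply, Matrix.add_apply, Matrix.smul_apply, vecMulVec_apply,
      Pi.add_apply, Pi.smul_apply, smul_eq_mul]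
    ring
  have h7 : ((c - 1) • psi).rank = n := by
    have h8 : ((c - 1) • psi).det ≠ 0 := by
      rw [Matrix.det_smul]
      exact mul_ne_zero (pow_ne_zero _ (sub_ne_zero.mpr hc)) hdet
    rw [rank_of_det_ne_zero h8, Fintype.card_fin]
  have h9 : ∀ A B : Matrix (Fin n) (Fin n) K, A.rank ≤ 1 → B.rank ≤ 1 → (A + B).rank ≤ 2 := by
    intro A B hA hB
    have h10 : LinearMap.range (A + B).mulVecLin ≤
        LinearMap.range A.mulVecLin ⊔ LinearMap.range B.mulVecLin := by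
      rw [Matrix.mulVecLin_add]
      rintro _ ⟨x, rfl⟩
      exact Submodule.add_mem_sup ⟨x, rfl⟩ ⟨x, rfl⟩
    have h11 := Submodule.finrank_mono h10
    have h12 := Submodule.finrank_add_le_finrank_add_finrank
      (LinearMap.range A.mulVecLin) (LinearMap.range B.mulVecLin)
    unfold Matrix.rank at hA hB ⊢
    omega
  have h13 := h9 _ _ (rank_vecMulVec_le z (q + (q ⬝ᵥ u) • z)) (rank_vecMulVec_le p z)
  rw [← h2, h7] at h13
  omega

lemma refl_det [CharZero K] {psi : Matrix (Fin n) (Fin n) K} {v : Fin n → K}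
    (hv : pf psi v v ≠ 0) : (Psr.refl psi v).det = -1 := by
  have h1 : Psr.refl psi v = 1 + replicateCol Unit v *
      replicateRow Unit (-(2 / pf psi v v) • (psi *ᵥ v)) := by
    rw [← vecMulVec_eq]
    unfold Psr.refl
    ext i j
    simp only [Matrix.sub_apply, Matrix.add_apply, Matrix.smul_apply, vecMulVec_apply,
      Pi.smul_apply, smul_eq_mul]
    ring
  rw [h1, det_one_add_replicateCol_mul_replicateRow, smul_dotProduct, pf_eq, smul_eq_mul]
  field_simp
  ring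

lemma refl_facts [CharZero K] {psi g : Matrix (Fin n) (Fin n) K} (hpsi : psi.transpose = psi)
    (hdet : psi.det ≠ 0) (hg : g.transpose * psi * g = psi) (h : (g - 1).rank = 1) :
    g.det = -1 ∧ g * g = 1 := by
  have hu : IsUnit psi := (Matrix.isUnit_iff_isUnit_det psi).mpr (isUnit_iff_ne_zero.mpr hdet)
  obtain ⟨u, z, hu0, hz0, h⟩ := rank_one h
  have hgm : g = 1 + vecMulVec u z := by rw [← h]; abel
  have hg' : (1 + vecMulVec u z).transpose * psi * (1 + vecMulVec u z) = psi := by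
    rw [← hgm]; exact hg
  obtain ⟨hv, hr⟩ := reflection_of hpsi hu hu0 hz0 hg'
  have hgr : g = Psr.refl psi u := by rw [hgm, hr]
  refine ⟨by rw [hgr, refl_det hv], ?_⟩
  rw [hgr]
  unfold Psr.refl
  set c : K := 2 / pf psi u u with hc
  have h8 : (1 - c • vecMulVec u (psi *ᵥ u)) * (1 - c • vecMulVec u (psi *ᵥ u)) =
      1 - (2 * c) • vecMulVec u (psi *ᵥ u) +
        (c * c) • (vecMulVec u (psi *ᵥ u) * vecMulVec u (psi *ᵥ u)) := by
    simp only [sub_mul, mul_sub, one_mul, mul_one, smul_mul_assoc, mul_smul_comm,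
      smul_sub, smul_smul, two_mul, add_smul]
    abel
  rw [h8, vmv_mul_vmv, pf_eq, smul_smul]
  have h9 : c * c * pf psi u u = 2 * c := by
    rw [hc]; field_simp
  rw [h9]; abel

end Ps7

variable {F : Type} [Field F] [NumberField F] {S : Finset ℕ} {n w : ℕ} {h : Fin n → ℕ}

/-- the image of a subgroup whose Lie algebra is large is dense in the connected group of
similitudes -/
theorem PMot.simC_le (M : PMot F S n w h) (hw : 0 < w) (zar : ST_ZAR) (sim : ST_SIM)
    (sim7 : ST_SIM7) (ism : ST_ISM) (idx : ST_IDX) (fre : ST_FRE) (hcyc : ST_CYC)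
    (l : ℕ) [Fact l.Prime] (p₀ : ℕ) (hp₀ : p₀.Prime) (hl : p₀ ≠ l) (H : Subgroup (Gal F)) (e : ℕ)
    (he : 1 ≤ e) (hHe : ∀ g : Gal F, g ^ e ∈ H)
    (hfull : ∀ A : Matrix (Fin n) (Fin n) ℚ_[l],
      A.transpose * bas ℚ_[l] M.ψ + bas ℚ_[l] M.ψ * A = 0 → A ∈ LieZ (H.map (M.ρ l)))
    (K : Type) [Field K] [Algebra ℚ_[l] K] :
    SimC w M.ψ K ⊆ ZC (H.map (M.ρ l) : Set (Matrix.GeneralLinearGroup (Fin n) ℚ_[l])) K := by
  obtain ⟨𝔓, k₀, g₀, h𝔓, hk₀, hg₀⟩ := exists_frob (F := F) idx fre p₀ hp₀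
  have hge : CongPow 𝔓 (p₀ ^ (k₀ * e)) (g₀ ^ e : Gal F) := by
    have := congPow_pow 𝔓 (p₀ ^ k₀) g₀ hg₀ e
    rwa [← pow_mul] at this
  have hk : 1 ≤ k₀ * e := Nat.mul_pos hk₀ he
  set g := g₀ ^ e with hgdef
  set k := k₀ * e with hkdef
  have hg : g ∈ H := hHe g₀
  have hcg : (((cyc l F g : ℤ_[l]ˣ) : ℤ_[l]) : ℚ_[l]) = ((p₀ ^ k : ℕ) : ℚ_[l]) := by
    have h1 := hcyc F F l p₀ hp₀ hl 𝔓 h𝔓 k g hge
    rw [h1]
    push_cast
    rfl
  obtain ⟨-, -, zldv, -, zmul⟩ := zar ℚ_[l] n (H.map (M.ρ l))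
  have hdet := bas_det ℚ_[l] M.ψ M.ψ_det
  -- multipliers
  have hmul : ∀ x ∈ H.map (M.ρ l), ∃ c : ℚ_[l],
      (x : Matrix (Fin n) (Fin n) ℚ_[l]).transpose * bas ℚ_[l] M.ψ *
        (x : Matrix (Fin n) (Fin n) ℚ_[l]) = c • bas ℚ_[l] M.ψ := by
    intro y hy
    obtain ⟨s, -, rfl⟩ := Subgroup.mem_map.mp hy
    exact ⟨_, M.gal_sim l s⟩
  have hinf : {c : ℚ_[l] | ∃ x ∈ H.map (M.ρ l),
      (x : Matrix (Fin n) (Fin n) ℚ_[l]).transpose * bas ℚ_[l] M.ψ *
        (x : Matrix (Fin n) (Fin n) ℚ_[l]) = c • bas ℚ_[l] M.ψ}.Infinite := by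
    have hinj : Function.Injective fun i : ℕ =>
        (((((p₀ ^ k : ℕ) : ℚ_[l]) ^ i) ^ w)⁻¹ : ℚ_[l]) := by
      intro i j hij
      have h1 := inv_injective hij
      rw [← pow_mul, ← pow_mul, ← Nat.cast_pow, ← Nat.cast_pow] at h1
      have h2 : (p₀ ^ k) ^ (i * w) = (p₀ ^ k) ^ (j * w) := by exact_mod_cast h1
      have h3 : 2 ≤ p₀ ^ k := by
        calc 2 ≤ p₀ := hp₀.two_le
          _ = p₀ ^ 1 := (pow_one _).symm
          _ ≤ p₀ ^ k := Nat.pow_le_pow_right hp₀.pos hk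
      exact Nat.eq_of_mul_eq_mul_right hw (Nat.pow_right_injective h3 h2)
    refine (Set.infinite_range_of_injective hinj).mono ?_
    rintro _ ⟨i, rfl⟩
    refine ⟨M.ρ l (g ^ i), Subgroup.mem_map_of_mem _ (H.pow_mem hg i), ?_⟩
    have h1 := M.gal_sim l (g ^ i)
    rw [map_pow (cyc l F)] at h1
    push_cast at h1
    rw [hcg] at h1
    exact h1
  have hiso : ∀ (L : Type) [Field L] [Algebra ℚ_[l] L] (y : Matrix.GeneralLinearGroup (Fin n) L),
      (y : Matrix (Fin n) (Fin n) L).transpose * (bas ℚ_[l] M.ψ).map (algebraMap ℚ_[l] L) *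
        (y : Matrix (Fin n) (Fin n) L) = (bas ℚ_[l] M.ψ).map (algebraMap ℚ_[l] L) →
      (y : Matrix (Fin n) (Fin n) L).det = 1 →
        y ∈ ZC (H.map (M.ρ l) : Set (Matrix.GeneralLinearGroup (Fin n) ℚ_[l])) L := by
    intro L _ _ y hy hy1
    haveI : CharZero L := charZero_of_injective_algebraMap (algebraMap ℚ_[l] L).injective
    rw [bas_map] at hy
    refine ism L n (bas L M.ψ) _ (bas_det L M.ψ M.ψ_det) ?_ (zmul L) ?_ y hy hy1
    · rcases bas_sym' L M.ψ w M.ψ_sym with ⟨-, h1⟩ | ⟨-, h1⟩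
      · exact Or.inl h1
      · exact Or.inr h1
    · intro z hz hz1 f hf
      have hcast : ∃ ε : ℚ_[l], ε * ε = 1 ∧
          (bas ℚ_[l] M.ψ).transpose = ε • bas ℚ_[l] M.ψ := by
        refine ⟨(-1) ^ w, ?_, bas_sym _ _ _ M.ψ_sym⟩
        rw [← mul_pow]
        simp
      obtain ⟨ε, hε, hεψ⟩ := hcast
      refine isometry_vanish two_ne_zero ε hε (bas ℚ_[l] M.ψ) (isUnit_iff_ne_zero.mpr hdet) hεψ
        {f | ∀ x ∈ H.map (M.ρ l), ev (x : Matrix (Fin n) (Fin n) ℚ_[l]) f = 0} ?_ ?_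
        (z : Matrix (Fin n) (Fin n) L) ?_ hz1 f hf
      · intro f hf
        have h1 := hf 1 (Subgroup.one_mem _)
        have h2 := ev_map (algebraMap ℚ_[l] L) (fun _ => rfl) (1 : Matrix (Fin n) (Fin n) ℚ_[l]) f
        rw [Matrix.map_one _ (map_zero _) (map_one _)] at h2
        rw [← h2]
        rw [Units.val_one] at h1
        rw [h1, map_zero]
      · intro A hA f hf x hx
        exact zldv A (hfull A hA) f hf x hx
      · rw [bas_map]
        exact hz
  rintro x ⟨c, hx, hxd⟩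
  have hx' : (x : Matrix (Fin n) (Fin n) K).transpose *
      (bas ℚ_[l] M.ψ).map (algebraMap ℚ_[l] K) * (x : Matrix (Fin n) (Fin n) K) =
        c • (bas ℚ_[l] M.ψ).map (algebraMap ℚ_[l] K) := by
    haveI : CharZero K := charZero_of_injective_algebraMap (algebraMap ℚ_[l] K).injective
    rw [bas_map]
    exact hx
  rcases bas_sym' ℚ_[l] M.ψ w M.ψ_sym with ⟨-, h1⟩ | ⟨hev, h1⟩
  · exact sim ℚ_[l] n (bas ℚ_[l] M.ψ) (H.map (M.ρ l)) hdet (Or.inl h1) hmul hinf hiso K x c hx'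
  · rcases Nat.even_or_odd n with hn | hn
    · exact sim7 ℚ_[l] n (bas ℚ_[l] M.ψ) (H.map (M.ρ l)) hdet hn hmul hinf hiso K x c hx'
        (hxd hev hn)
    · exact sim ℚ_[l] n (bas ℚ_[l] M.ψ) (H.map (M.ρ l)) hdet (Or.inr ⟨h1, hn⟩) hmul hinf hiso K x
        c hx'

/-- MAIN7 -/
theorem st_MAIN7 (irr7 : ST_IRR7) (ful7 : ST_FUL7) (zar : ST_ZAR) (ten : ST_TEN)
    (sim : ST_SIM) (sim7 : ST_SIM7) (ism : ST_ISM) (hdg7 : ST_HDG7) (g07 : ST_G07)
    (idx : ST_IDX) (fre : ST_FRE) (hcyc : ST_CYC) : ST_MAIN7 := by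
  intro F _ _ S hS n w h M l _ hM
  refine ⟨irr7 F S hS n w h M l hM, ?_⟩
  intro hw hn hrefl K _ _
  haveI : CharZero K := charZero_of_injective_algebraMap (algebraMap ℚ_[l] K).injective
  obtain ⟨p₀, hp₀, hl, -⟩ := hM.1
  have hM' := hM
  obtain ⟨ten1, ten2⟩ := ten
  have hZC : ∀ H : Subgroup (Gal F), IsOpen (H : Set (Gal F)) →
      SimC w M.ψ K ⊆ ZC (M.ρ l '' H) K ∧ ZC (M.ρ l '' H) K ⊆ Sim M.ψ K := by
    intro H hH
    obtain ⟨H₁, hle, hnor, hopen, e, he, hHe⟩ := exists_core H hH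
    constructor
    · refine (M.toPMot.simC_le hw zar sim sim7 ism idx fre hcyc l p₀ hp₀ hl H e he
        (fun g => hle (hHe g)) (ful7 F S hS n w h M l hn hM' hrefl H hH) K).trans ?_
      intro g hg f hf
      refine hg f ?_
      rintro _ ⟨s, hs, rfl⟩
      exact hf _ ⟨s, hs, rfl⟩
    · intro g hg
      rw [ten2 K n M.ψ M.ψ_det]
      refine ten1 ℚ_[l] n 2 2 (M.ρ l '' H) (polTen M.ψ) ?_ K g hg
      rintro _ ⟨s, -, rfl⟩
      exact (ten2 ℚ_[l] n M.ψ M.ψ_det _).mp (M.toPMot.mem_Sim l s)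
  have htop : IsOpen ((⊤ : Subgroup (Gal F)) : Set (Gal F)) := by
    rw [Subgroup.coe_top]
    exact isOpen_univ
  have hGlZ : ZC (M.ρ l '' ((⊤ : Subgroup (Gal F)) : Set (Gal F))) K = M.Gl l K := by
    rw [Subgroup.coe_top, Set.image_univ]
    rfl
  have hGlC : SimC w M.ψ K ⊆ M.Gl l K := by
    rw [← hGlZ]; exact (hZC ⊤ htop).1
  have hGlS : M.Gl l K ⊆ Sim M.ψ K := by
    rw [← hGlZ]; exact (hZC ⊤ htop).2
  have hSimGl : Sim M.ψ K ⊆ M.Gl l K := by
    intro y hy
    obtain ⟨c, hc⟩ := hy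
    by_cases hcase : Even w ∧ Even n
    swap
    · exact hGlC ⟨c, hc, fun h1 h2 => absurd ⟨h1, h2⟩ hcase⟩
    obtain ⟨hev, hen⟩ := hcase
    obtain ⟨m, hm⟩ := hen
    have hnm : n / 2 = m := by omega
    have hdetK := bas_det K M.ψ M.ψ_det
    -- the determinant up to sign
    have hd : (y : Matrix (Fin n) (Fin n) K).det ^ 2 = (c ^ m) ^ 2 := by
      have h1 := congrArg Matrix.det hc
      rw [Matrix.det_mul, Matrix.det_mul, Matrix.det_transpose, Matrix.det_smul,
        Fintype.card_fin] at h1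
      have h2 : ((y : Matrix (Fin n) (Fin n) K).det ^ 2 - (c ^ m) ^ 2) * (bas K M.ψ).det = 0 := by
        rw [← pow_mul, mul_comm m 2, two_mul, ← hm]
        linear_combination h1
      rcases mul_eq_zero.mp h2 with h3 | h3
      · exact sub_eq_zero.mp h3
      · exact absurd h3 hdetK
    rcases sq_eq_sq_iff_eq_or_eq_neg.mp hd with h1 | h1
    · exact hGlC ⟨c, hc, fun _ _ => by rw [hnm]; exact h1⟩
    -- multiply by the reflection
    obtain ⟨g, hg⟩ := hrefl
    have hgs := M.toPMot.gal_sim l g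
    have hdetl := bas_det ℚ_[l] M.ψ M.ψ_det
    have hone := Ps7.mult_one hn hdetl hgs hg
    rw [hone, one_smul] at hgs
    have hsym : (bas ℚ_[l] M.ψ).transpose = bas ℚ_[l] M.ψ := by
      rcases bas_sym' ℚ_[l] M.ψ w M.ψ_sym with ⟨h2, -⟩ | ⟨-, h2⟩
      · exact absurd hev (Nat.not_even_iff_odd.mpr h2)
      · exact h2
    obtain ⟨hrdet, hrsq⟩ := Ps7.refl_facts hsym hdetl hgs hg
    set r : Matrix.GeneralLinearGroup (Fin n) K :=
      Matrix.GeneralLinearGroup.map (algebraMap ℚ_[l] K) (M.ρ l g) with hr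
    have hrm : (r : Matrix (Fin n) (Fin n) K) =
        (mat (M.ρ l) g).map (algebraMap ℚ_[l] K) := rfl
    have hrGl : r ∈ M.Gl l K := by
      intro f hf
      have h2 := hf (M.ρ l g) ⟨g, rfl⟩
      have h3 := ev_map (algebraMap ℚ_[l] K) (fun _ => rfl)
        ((M.ρ l g : Matrix.GeneralLinearGroup (Fin n) ℚ_[l]) : Matrix (Fin n) (Fin n) ℚ_[l]) f
      rw [h2, map_zero] at h3
      exact h3.symm
    have hr2 : r * r = 1 := by
      apply Units.ext
      rw [Units.val_mul, hrm, ← Matrix.map_mul, hrsq, Matrix.map_one _ (map_zero _) (map_one _),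
        Units.val_one]
    have hrpsi : (r : Matrix (Fin n) (Fin n) K).transpose * bas K M.ψ *
        (r : Matrix (Fin n) (Fin n) K) = bas K M.ψ := by
      have h2 := congrArg (fun X => X.map (algebraMap ℚ_[l] K)) hgs
      simp only [Matrix.map_mul, bas_map] at h2
      rw [hrm, ← Matrix.transpose_map]
      exact h2
    have hrd : (r : Matrix (Fin n) (Fin n) K).det = -1 := by
      have h2 : (r : Matrix (Fin n) (Fin n) K).det =
          algebraMap ℚ_[l] K (mat (M.ρ l) g).det := by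
        rw [hrm, RingHom.map_det]
        rfl
      rw [h2, hrdet, map_neg, map_one]
    have hyr : y * r ∈ M.Gl l K := by
      apply hGlC
      refine ⟨c, ?_, fun _ _ => ?_⟩
      · rw [Units.val_mul, Matrix.transpose_mul]
        calc (r : Matrix (Fin n) (Fin n) K).transpose * (y : Matrix (Fin n) (Fin n) K).transpose *
              bas K M.ψ * ((y : Matrix (Fin n) (Fin n) K) * (r : Matrix (Fin n) (Fin n) K))
            = (r : Matrix (Fin n) (Fin n) K).transpose *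
              ((y : Matrix (Fin n) (Fin n) K).transpose * bas K M.ψ *
                (y : Matrix (Fin n) (Fin n) K)) * (r : Matrix (Fin n) (Fin n) K) := by
              simp only [Matrix.mul_assoc]
          _ = c • bas K M.ψ := by
              rw [hc, Matrix.mul_smul, Matrix.smul_mul, hrpsi]
      · rw [Units.val_mul, Matrix.det_mul, h1, hrd, hnm]
        ring
    have hfin : y * r * r ∈ M.Gl l K := by
      obtain ⟨-, -, -, -, zmul⟩ := zar ℚ_[l] n (M.ρ l).range
      have h2 : ((M.ρ l).range : Set (Matrix.GeneralLinearGroup (Fin n) ℚ_[l])) =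
          Set.range (M.ρ l) := MonoidHom.coe_range _
      have h3 := zmul K (y * r) (by rw [h2]; exact hyr) r (by rw [h2]; exact hrGl)
      rw [h2] at h3
      exact h3
    rwa [mul_assoc, hr2, mul_one] at hfin
  have hGl : M.Gl l K = Sim M.ψ K := Set.Subset.antisymm hGlS hSimGl
  have hGmot : M.Gmot K = Sim M.ψ K := by
    apply Set.Subset.antisymm
    · intro g hg
      rw [ten2 K n M.ψ M.ψ_det]
      exact hg 2 2 _ M.mot_pol
    · intro g hg a b t ht
      rw [← hGl] at hg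
      refine ten1 ℚ_[l] n a b (Set.range (M.ρ l)) t ?_ K g hg
      rintro _ ⟨s, rfl⟩
      exact M.mot_gal a b t ht l s
  have hGl0 : M.Gl0 l K = SimC w M.ψ K := by
    apply Set.Subset.antisymm
    · exact g07 F S n w h M.toPMot l K (by omega)
    · intro g hg H hH
      exact (hZC H hH).1 hg
  have hsub : M.Gsigma K ⊆ M.Gl0 l K := by
    rw [hGl0]
    exact hdg7 F S n w h M.toPMot K (by omega)
  refine ⟨hZC, by rw [hGl, hGmot], hGmot, hGl0, hsub, ?_⟩
  intro hyp
  refine Set.Subset.antisymm ?_ hsub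
  intro g hg a b t ht
  obtain ⟨H, hH, hfix⟩ := hyp a b t ht
  refine ten1 ℚ_[l] n a b (M.ρ l '' H) t ?_ K g (hg H hH)
  rintro _ ⟨s, hs, rfl⟩
  exact hfix s hs

end MT
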