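import Pool.Agent.Helper21.MT7.Stmts
import Pool.Agent.Helper8.MT.PSG

/-!
# Pseudo-reflections and strongly irreducible groups (modules PS1 and PS2 of T7)
-/

set_option autoImplicit false

open Matrix

namespace MT.Ps7

open MT.Psr

section
variable {K : Type*} [Field K] {n : ℕ}

/-- a matrix of rank one is a column times a row -/
lemma rank_one {A : Matrix (Fin n) (Fin n) K} (h : A.rank = 1) :
    ∃ u z : Fin n → K, u ≠ 0 ∧ z ≠ 0 ∧ A = vecMulVec u z := by
  unfold Matrix.rank at h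
  obtain ⟨⟨u, hu⟩, hne, hall⟩ := finrank_eq_one_iff'.mp h
  have hu0 : u ≠ 0 := fun h0 => hne (by ext1; exact h0)
  have hcol : ∀ j : Fin n, ∃ c : K, ∀ i, A i j = u i * c := by
    intro j
    obtain ⟨c, hc⟩ := hall ⟨A.mulVecLin (Pi.single j 1), LinearMap.mem_range_self _ _⟩
    refine ⟨c, fun i => ?_⟩
    have h1 := congrArg (fun x : LinearMap.range A.mulVecLin => (x : Fin n → K) i) hc
    simp only [Matrix.mulVecLin_apply, Matrix.mulVec_single_one, SetLike.val_smul, Pi.smul_apply,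
      smul_eq_mul, Matrix.col_apply] at h1
    rw [← h1]; ring
  choose z hz using hcol
  refine ⟨u, z, hu0, ?_, ?_⟩
  · rintro rfl
    have hA : A = 0 := by
      ext i j
      rw [hz j i]; simp
    have : A.mulVecLin = 0 := by rw [hA]; simp
    rw [this, LinearMap.range_zero, finrank_bot] at h
    exact zero_ne_one h
  · ext i j
    rw [vecMulVec_apply, hz j i]

/-- a skew matrix of rank one is a multiple of `XX` -/
lemma skew_rank_one {psi T : Matrix (Fin n) (Fin n) K} (hpsi : psi.transpose = -psi)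
    (hu : IsUnit psi) (hT : T.transpose * psi + psi * T = 0) (h : T.rank = 1) :
    ∃ (c : K) (u : Fin n → K), c ≠ 0 ∧ u ≠ 0 ∧ T = c • XX psi u := by
  obtain ⟨u, z, hu0, hz0, rfl⟩ := rank_one h
  set p : Fin n → K := psi *ᵥ u with hp
  have hp0 : p ≠ 0 := psi_mulVec_ne hu hu0
  have hup : u ᵥ* psi = -p := by
    rw [← mulVec_transpose, hpsi, neg_mulVec]
  have h3 : (vecMulVec u z).transpose = vecMulVec z u := by
    ext i j; simp [vecMulVec_apply, mul_comm]
  rw [h3, vecMulVec_mul, hup, mul_vecMulVec', ← hp] at hT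
  obtain ⟨i, hi⟩ := Function.ne_iff.mp hp0
  rw [Pi.zero_apply] at hi
  have h6 : ∀ j, z j = (z i / p i) * p j := by
    intro j
    have h7 := congrFun (congrFun hT i) j
    simp only [Matrix.add_apply, vecMulVec_apply, Matrix.zero_apply, Pi.neg_apply] at h7
    field_simp
    linear_combination h7
  refine ⟨z i / p i, u, ?_, hu0, ?_⟩
  · intro h0
    apply hz0
    ext j
    rw [h6 j, h0, zero_mul, Pi.zero_apply]
  · ext k l
    rw [Matrix.smul_apply, vecMulVec_apply, h6 l]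
    unfold XX
    rw [vecMulVec_apply, ← hp, smul_eq_mul]
    ring

end

/-- PS2 -/
theorem st_PS2 : ST_PS2 := by
  intro K _ _ n ψ g a hdet hpsi hbr hso hirr hg hrk hconj A hA
  have hu : IsUnit ψ := (Matrix.isUnit_iff_isUnit_det ψ).mpr (isUnit_iff_ne_zero.mpr hdet)
  obtain ⟨u, z, hu0, hz0, h⟩ := rank_one hrk
  have hgm : (g : Matrix (Fin n) (Fin n) K) = 1 + vecMulVec u z := by rw [← h]; abel
  have hg' : (1 + vecMulVec u z).transpose * ψ * (1 + vecMulVec u z) = ψ := by
    rw [← hgm]; exact hg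
  obtain ⟨hv, hr⟩ := reflection_of hpsi hu hu0 hz0 hg'
  have hgr : (g : Matrix (Fin n) (Fin n) K) = Psr.refl ψ u := by rw [hgm, hr]
  have hrr : Psr.refl ψ u * Psr.refl ψ u = 1 := by
    unfold Psr.refl
    set c : K := 2 / pf ψ u u with hc
    have h8 : (1 - c • vecMulVec u (ψ *ᵥ u)) * (1 - c • vecMulVec u (ψ *ᵥ u)) =
        1 - (2 * c) • vecMulVec u (ψ *ᵥ u) +
          (c * c) • (vecMulVec u (ψ *ᵥ u) * vecMulVec u (ψ *ᵥ u)) := by
      simp only [sub_mul, mul_sub, one_mul, mul_one, smul_mul_assoc, mul_smul_comm,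
        smul_sub, smul_smul, two_mul, add_smul]
      abel
    rw [h8, vmv_mul_vmv, pf_eq, smul_smul]
    have h9 : c * c * pf ψ u u = 2 * c := by
      rw [hc]; field_simp
    rw [h9]; abel
  have hinv : ((g⁻¹ : Matrix.GeneralLinearGroup (Fin n) K) : Matrix (Fin n) (Fin n) K) =
      Psr.refl ψ u := by
    have h9 : g * g = 1 := by
      apply Units.ext
      rw [Units.val_mul, hgr, hrr, Units.val_one]
    rw [inv_eq_of_mul_eq_one_left h9, hgr]
  refine psr_even hpsi hu a hbr hso hirr u hv ?_ A hA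
  intro B hB
  have h10 := hconj B hB
  rwa [hinv, hgr] at h10


/-! ## PS1 -/

section
variable {K : Type*} [Field K] {n : ℕ}

/-- the set of `u` whose transvection generator is in `a` -/
def RR (psi : Matrix (Fin n) (Fin n) K) (a : Submodule K (Matrix (Fin n) (Fin n) K)) :
    Set (Fin n → K) := {u | XX psi u ∈ a}

/-- elements at distance at most two from `u` -/
def SS (psi : Matrix (Fin n) (Fin n) K) (a : Submodule K (Matrix (Fin n) (Fin n) K))
    (u : Fin n → K) : Set (Fin n → K) :=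
  {x | x ∈ RR psi a ∧ (pf psi u x ≠ 0 ∨ ∃ w ∈ RR psi a, pf psi u w ≠ 0 ∧ pf psi w x ≠ 0)}

variable {psi : Matrix (Fin n) (Fin n) K} {a : Submodule K (Matrix (Fin n) (Fin n) K)}

lemma pf_ne (hpsi : psi.transpose = -psi) {x y : Fin n → K} (h : pf psi x y ≠ 0) :
    pf psi y x ≠ 0 := by
  rw [pf_neg hpsi]
  exact neg_ne_zero.mpr h

lemma hB1 (hpsi : psi.transpose = -psi) (hbr : ∀ A ∈ a, ∀ B ∈ a, A * B - B * A ∈ a)
    {u w : Fin n → K} (hu' : u ∈ RR psi a) (hw : w ∈ RR psi a) (h : pf psi u w ≠ 0) :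
    BB psi u w ∈ a := by
  have h3 := hbr _ hu' _ hw
  rw [bracket_XX hpsi] at h3
  have h4 : pf psi w u ≠ 0 := pf_ne hpsi h
  have h5 := a.smul_mem (pf psi w u)⁻¹ h3
  rwa [smul_smul, inv_mul_cancel₀ h4, one_smul] at h5

lemma hB2 {u w : Fin n → K} (hu' : u ∈ RR psi a) (hw : w ∈ RR psi a) (h : BB psi u w ∈ a) :
    u + w ∈ RR psi a := by
  have h3 : XX psi (u + w) = XX psi u + (1:K) • BB psi u w + (1:K) ^ 2 • XX psi w := by
    conv_lhs => rw [← one_smul K w]
    exact XX_add 1 u w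
  change XX psi (u + w) ∈ a
  rw [h3]
  exact a.add_mem (a.add_mem hu' (a.smul_mem _ h)) (a.smul_mem _ hw)

lemma SS_edge (hpsi : psi.transpose = -psi) (hbr : ∀ A ∈ a, ∀ B ∈ a, A * B - B * A ∈ a)
    (u : Fin n → K) {x y : Fin n → K} (hx : x ∈ SS psi a u) (hy : y ∈ RR psi a)
    (hxy : pf psi x y ≠ 0) : y ∈ SS psi a u := by
  obtain ⟨hxR, hx⟩ := hx
  refine ⟨hy, ?_⟩
  by_cases hux : pf psi u x ≠ 0
  · exact Or.inr ⟨x, hxR, hux, hxy⟩
  rcases hx with hx | ⟨w, hw, huw, hwx⟩
  · exact absurd hx hux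
  by_cases hwy : pf psi w y ≠ 0
  · exact Or.inr ⟨w, hw, huw, hwy⟩
  push Not at hux hwy
  refine Or.inr ⟨w + x, hB2 hw hxR (hB1 hpsi hbr hw hxR hwx), ?_, ?_⟩
  · rw [pf_add_right, hux, add_zero]; exact huw
  · rw [pf_add_left, hwy, zero_add]; exact hxy

lemma SS_self (hpsi : psi.transpose = -psi) (hu : IsUnit psi)
    (hspan : Submodule.span K (RR psi a) = ⊤) {u : Fin n → K} (huR : u ∈ RR psi a)
    (hu0 : u ≠ 0) : u ∈ SS psi a u := by
  obtain ⟨y, hy, h⟩ := exists_pf_ne hu hspan hu0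
  exact ⟨huR, Or.inr ⟨y, hy, h, pf_ne hpsi h⟩⟩

lemma SS_symm (hpsi : psi.transpose = -psi) {u x : Fin n → K} (huR : u ∈ RR psi a)
    (hx : x ∈ SS psi a u) : u ∈ SS psi a x := by
  refine ⟨huR, ?_⟩
  rcases hx.2 with h | ⟨w, hw, h1, h2⟩
  · exact Or.inl (pf_ne hpsi h)
  · exact Or.inr ⟨w, hw, pf_ne hpsi h2, pf_ne hpsi h1⟩

lemma SS_trans (hpsi : psi.transpose = -psi) (hbr : ∀ A ∈ a, ∀ B ∈ a, A * B - B * A ∈ a)
    {u x y : Fin n → K} (hx : x ∈ SS psi a u) (hy : y ∈ SS psi a x) : y ∈ SS psi a u := by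
  rcases hy.2 with h | ⟨w, hw, h1, h2⟩
  · exact SS_edge hpsi hbr u hx hy.1 h
  · exact SS_edge hpsi hbr u (SS_edge hpsi hbr u hx hw h1) hy.1 h2

lemma SS_eq (hpsi : psi.transpose = -psi) (hbr : ∀ A ∈ a, ∀ B ∈ a, A * B - B * A ∈ a)
    {u x : Fin n → K} (huR : u ∈ RR psi a) (hx : x ∈ SS psi a u) : SS psi a x = SS psi a u := by
  ext y
  exact ⟨fun hy => SS_trans hpsi hbr hx hy,
    fun hy => SS_trans hpsi hbr (SS_symm hpsi huR hx) hy⟩

/-- spans of different components are orthogonal -/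
lemma SS_orth (hpsi : psi.transpose = -psi) (hbr : ∀ A ∈ a, ∀ B ∈ a, A * B - B * A ∈ a)
    {u w : Fin n → K} (huR : u ∈ RR psi a) (hne : SS psi a u ≠ SS psi a w)
    (hwR : w ∈ RR psi a) :
    ∀ x ∈ Submodule.span K (SS psi a u), ∀ y ∈ Submodule.span K (SS psi a w),
      pf psi x y = 0 := by
  have h0 : ∀ x ∈ SS psi a u, ∀ y ∈ SS psi a w, pf psi x y = 0 := by
    intro x hx y hy
    by_contra h
    have h1 : y ∈ SS psi a u := SS_edge hpsi hbr u hx hy.1 h
    exact hne ((SS_eq hpsi hbr huR h1).symm.trans (SS_eq hpsi hbr hwR hy))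
  intro x hx y hy
  induction hx using Submodule.span_induction with
  | mem x hx =>
    induction hy using Submodule.span_induction with
    | mem y hy => exact h0 x hx y hy
    | zero => simp [pf]
    | add y z _ _ h1 h2 => rw [pf_add_right, h1, h2, add_zero]
    | smul c y _ h1 => rw [pf_smul_right, h1, mul_zero]
  | zero => simp [pf]
  | add x z _ _ h1 h2 => rw [pf_add_left, h1, h2, add_zero]
  | smul c x _ h1 => rw [pf_smul_left, h1, mul_zero]

/-- the orthogonal space -/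
def orth (psi : Matrix (Fin n) (Fin n) K) (V : Submodule K (Fin n → K)) :
    Submodule K (Fin n → K) where
  carrier := {y | ∀ x ∈ V, pf psi x y = 0}
  zero_mem' := fun x _ => by simp [pf]
  add_mem' := by
    intro y z hy hz x hx
    rw [pf_add_right, hy x hx, hz x hx, add_zero]
  smul_mem' := by
    intro c y hy x hx
    rw [pf_smul_right, hy x hx, mul_zero]

/-- the spans of the components are independent -/
lemma SS_indep [CharZero K] (hpsi : psi.transpose = -psi) (hu : IsUnit psi)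
    (hbr : ∀ A ∈ a, ∀ B ∈ a, A * B - B * A ∈ a)
    (hspan : Submodule.span K (RR psi a) = ⊤) :
    sSupIndep {V : Submodule K (Fin n → K) | ∃ u ∈ RR psi a, u ≠ 0 ∧
      V = Submodule.span K (SS psi a u)} := by
  rintro V ⟨u, huR, hu0, rfl⟩
  rw [Submodule.disjoint_def]
  intro x hx hx'
  have h1 : x ∈ orth psi (Submodule.span K (SS psi a u)) := by
    refine (sSup_le ?_ : sSup _ ≤ orth psi (Submodule.span K (SS psi a u))) hx'
    rintro W ⟨⟨w, hwR, hw0, rfl⟩, hW⟩ y hy z hz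
    refine SS_orth hpsi hbr huR ?_ hwR z hz y hy
    intro h
    exact hW (by rw [Set.mem_singleton_iff, h])
  refine pf_nondeg hu (span_pf hspan ?_)
  intro y hy
  by_cases hy0 : y = 0
  · rw [hy0]; simp [pf]
  by_cases hyu : SS psi a u = SS psi a y
  · have h2 : y ∈ Submodule.span K (SS psi a u) := by
      rw [hyu]; exact Submodule.subset_span (SS_self hpsi hu hspan hy hy0)
    rw [pf_neg hpsi, h1 y h2, neg_zero]
  · exact SS_orth hpsi hbr huR hyu hy x hx y
      (Submodule.subset_span (SS_self hpsi hu hspan hy hy0))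

end

/-- PS1 -/
theorem st_PS1 : ST_PS1 := by
  intro K _ _ n ψ T a G hdet hpsi hbr hG hsim hconj hTa hT hrk A hA
  have hu : IsUnit ψ := (Matrix.isUnit_iff_isUnit_det ψ).mpr (isUnit_iff_ne_zero.mpr hdet)
  obtain ⟨c0, u0, hc0, hu0, hTX⟩ := skew_rank_one hpsi hu hT hrk
  have hu0R : u0 ∈ RR ψ a := by
    have h1 := a.smul_mem c0⁻¹ hTa
    rw [hTX, smul_smul, inv_mul_cancel₀ hc0, one_smul] at h1
    exact h1
  -- multipliers are nonzero
  have hsim' : ∀ g ∈ G, ∃ c : K, c ≠ 0 ∧ (g : Matrix (Fin n) (Fin n) K).transpose * ψ *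
      (g : Matrix (Fin n) (Fin n) K) = c • ψ := by
    intro g hg
    obtain ⟨c, hc⟩ := hsim g hg
    refine ⟨c, ?_, hc⟩
    rintro rfl
    rw [zero_smul] at hc
    have hgu : IsUnit (g : Matrix (Fin n) (Fin n) K) := g.isUnit
    have h2 : ψ *ᵥ u0 = 0 := by
      have h3 : (g : Matrix (Fin n) (Fin n) K).transpose * ψ = 0 := by
        have h4 := congrArg (fun X => X * ((g⁻¹ : Matrix.GeneralLinearGroup (Fin n) K) :
          Matrix (Fin n) (Fin n) K)) hc
        simp only [Matrix.zero_mul] at h4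
        rw [Matrix.mul_assoc, ← Units.val_mul, mul_inv_cancel, Units.val_one,
          Matrix.mul_one] at h4
        exact h4
      have h5 : ψ = 0 := by
        have h6 : ((g⁻¹ : Matrix.GeneralLinearGroup (Fin n) K) :
          Matrix (Fin n) (Fin n) K).transpose * (g : Matrix (Fin n) (Fin n) K).transpose = 1 := by
          rw [← Matrix.transpose_mul, ← Units.val_mul, mul_inv_cancel, Units.val_one,
            Matrix.transpose_one]
        calc ψ = (((g⁻¹ : Matrix.GeneralLinearGroup (Fin n) K) :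
          Matrix (Fin n) (Fin n) K).transpose *
            (g : Matrix (Fin n) (Fin n) K).transpose) * ψ := by rw [h6, Matrix.one_mul]
          _ = 0 := by rw [Matrix.mul_assoc, h3, Matrix.mul_zero]
      rw [h5, zero_mulVec]
    exact psi_mulVec_ne hu hu0 h2
  have hR : ∀ g ∈ G, ∀ u ∈ RR ψ a, (g : Matrix (Fin n) (Fin n) K) *ᵥ u ∈ RR ψ a := by
    intro g hg u huR
    obtain ⟨c, hc, hgc⟩ := hsim' g hg
    have h1 := hconj g hg _ huR
    have hgh : (g : Matrix (Fin n) (Fin n) K) *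
        ((g⁻¹ : Matrix.GeneralLinearGroup (Fin n) K) : Matrix (Fin n) (Fin n) K) = 1 := by
      rw [← Units.val_mul, mul_inv_cancel, Units.val_one]
    rw [XX_conj hgh hgc hc] at h1
    have h2 := a.smul_mem c h1
    rwa [smul_smul, mul_inv_cancel₀ hc, one_smul] at h2
  have hinv : ∀ (g : Matrix.GeneralLinearGroup (Fin n) K) (x : Fin n → K),
      (g : Matrix (Fin n) (Fin n) K) *ᵥ (((g⁻¹ : Matrix.GeneralLinearGroup (Fin n) K) :
        Matrix (Fin n) (Fin n) K) *ᵥ x) = x := by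
    intro g x
    rw [mulVec_mulVec, ← Units.val_mul, mul_inv_cancel, Units.val_one, one_mulVec]
  have himg : ∀ g ∈ G, (fun x => (g : Matrix (Fin n) (Fin n) K) *ᵥ x) '' RR ψ a = RR ψ a := by
    intro g hg
    ext x
    constructor
    · rintro ⟨y, hy, rfl⟩; exact hR g hg y hy
    · intro hx
      exact ⟨_, hR g⁻¹ (G.inv_mem hg) x hx, hinv g x⟩
  have hmapspan : ∀ (g : Matrix.GeneralLinearGroup (Fin n) K) (S S' : Set (Fin n → K)),
      (fun x => (g : Matrix (Fin n) (Fin n) K) *ᵥ x) '' S = S' →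
      (Submodule.span K S).map (Matrix.mulVecLin (g : Matrix (Fin n) (Fin n) K)) =
        Submodule.span K S' := by
    intro g S S' h
    rw [Submodule.map_span, ← h]
    rfl
  have hspan : Submodule.span K (RR ψ a) = ⊤ := by
    have hfin : {U' : Submodule K (Fin n → K) | ∃ g ∈ G,
        U' = (Submodule.span K (RR ψ a)).map
          (Matrix.mulVecLin (g : Matrix (Fin n) (Fin n) K))}.Finite := by
      refine (Set.finite_singleton (Submodule.span K (RR ψ a))).subset ?_
      rintro U' ⟨g, hg, rfl⟩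
      rw [Set.mem_singleton_iff]
      exact hmapspan g _ _ (himg g hg)
    rcases hG _ hfin with h | h
    · exfalso
      have h1 : u0 ∈ Submodule.span K (RR ψ a) := Submodule.subset_span hu0R
      rw [h, Submodule.mem_bot] at h1
      exact hu0 h1
    · exact h
  have hpfg : ∀ g ∈ G, ∀ x y, pf ψ x y ≠ 0 →
      pf ψ ((g : Matrix (Fin n) (Fin n) K) *ᵥ x) ((g : Matrix (Fin n) (Fin n) K) *ᵥ y) ≠ 0 := by
    intro g hg x y h
    obtain ⟨c, hc, hgc⟩ := hsim' g hg
    have h1 : pf ψ ((g : Matrix (Fin n) (Fin n) K) *ᵥ x) ((g : Matrix (Fin n) (Fin n) K) *ᵥ y) =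
        c * pf ψ x y := by
      have h2 : pf (c • ψ) x y = c * pf ψ x y := by
        unfold pf
        rw [smul_mulVec, dotProduct_smul, smul_eq_mul]
      rw [← h2, ← hgc]
      unfold pf
      have h3 : ∀ z, ((g : Matrix (Fin n) (Fin n) K) *ᵥ x) ⬝ᵥ z =
          x ⬝ᵥ ((g : Matrix (Fin n) (Fin n) K).transpose *ᵥ z) := by
        intro z
        rw [mulVec_transpose, dotProduct_comm, dotProduct_mulVec, dotProduct_comm]
      rw [h3, mulVec_mulVec, mulVec_mulVec]
    rw [h1]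
    exact mul_ne_zero hc h
  have himgS : ∀ g ∈ G, ∀ u, (fun x => (g : Matrix (Fin n) (Fin n) K) *ᵥ x) '' SS ψ a u =
      SS ψ a ((g : Matrix (Fin n) (Fin n) K) *ᵥ u) := by
    have key : ∀ g ∈ G, ∀ u x, x ∈ SS ψ a u → (g : Matrix (Fin n) (Fin n) K) *ᵥ x ∈
        SS ψ a ((g : Matrix (Fin n) (Fin n) K) *ᵥ u) := by
      intro g hg u x hx
      refine ⟨hR g hg x hx.1, ?_⟩
      rcases hx.2 with h | ⟨w, hw, h1, h2⟩
      · exact Or.inl (hpfg g hg _ _ h)
      · exact Or.inr ⟨_, hR g hg w hw, hpfg g hg _ _ h1, hpfg g hg _ _ h2⟩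
    intro g hg u
    ext x
    constructor
    · rintro ⟨y, hy, rfl⟩; exact key g hg u y hy
    · intro hx
      refine ⟨_, ?_, hinv g x⟩
      have h1 := key g⁻¹ (G.inv_mem hg) _ x hx
      have h2 := hinv g⁻¹ u
      rw [inv_inv] at h2
      rwa [h2] at h1
  -- one component
  have hone : ∀ u ∈ RR ψ a, u ≠ 0 → Submodule.span K (SS ψ a u) = ⊤ := by
    intro u huR hu1
    have hfin : {U' : Submodule K (Fin n → K) | ∃ g ∈ G,
        U' = (Submodule.span K (SS ψ a u)).map
          (Matrix.mulVecLin (g : Matrix (Fin n) (Fin n) K))}.Finite := by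
      refine (WellFoundedGT.finite_of_sSupIndep (SS_indep hpsi hu hbr hspan)).subset ?_
      rintro U' ⟨g, hg, rfl⟩
      refine ⟨(g : Matrix (Fin n) (Fin n) K) *ᵥ u, hR g hg u huR, ?_, hmapspan g _ _ (himgS g hg u)⟩
      intro h0
      have h2 := hinv g⁻¹ u
      rw [inv_inv, h0, mulVec_zero] at h2
      exact hu1 h2.symm
    rcases hG _ hfin with h | h
    · exfalso
      have h1 : u ∈ Submodule.span K (SS ψ a u) :=
        Submodule.subset_span (SS_self hpsi hu hspan huR hu1)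
      rw [h, Submodule.mem_bot] at h1
      exact hu1 h1
    · exact h
  have hdist : ∀ u ∈ RR ψ a, u ≠ 0 → ∀ v ∈ RR ψ a, v ≠ 0 → v ∈ SS ψ a u := by
    intro u huR hu1 v hvR hv1
    obtain ⟨x, hx, h⟩ := exists_pf_ne hu (hone u huR hu1) hv1
    exact SS_edge hpsi hbr u hx hvR (pf_ne hpsi h)
  have hBR : ∀ u ∈ RR ψ a, ∀ w ∈ RR ψ a, BB ψ u w ∈ a := by
    intro u hu' w hw
    by_cases hu0 : u = 0
    · subst hu0
      have : BB ψ 0 w = 0 := by simp [BB]
      rw [this]; exact a.zero_mem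
    by_cases hw0 : w = 0
    · subst hw0
      have : BB ψ u 0 = 0 := by simp [BB]
      rw [this]; exact a.zero_mem
    by_cases huw : pf ψ u w ≠ 0
    · exact hB1 hpsi hbr hu' hw huw
    rcases (hdist u hu' hu0 w hw hw0).2 with h | ⟨v, hv, huv, hvw⟩
    · exact absurd h huw
    push Not at huw
    have h3 := hB2 hu' hv (hB1 hpsi hbr hu' hv huv)
    have h4 := hB1 hpsi hbr h3 hw (by rw [pf_add_left, huw, zero_add]; exact hvw)
    have h5 := hB1 hpsi hbr hv hw hvw
    rw [BB_add_left] at h4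
    have h6 := a.sub_mem h4 h5
    rwa [add_sub_cancel_right] at h6
  have hB3 : ∀ u, ∀ w ∈ RR ψ a, BB ψ u w ∈ a := by
    intro u w hw
    have hy : u ∈ Submodule.span K (RR ψ a) := by rw [hspan]; trivial
    induction hy using Submodule.span_induction with
    | mem y hy => exact hBR y hy w hw
    | zero => simp [BB]
    | add y z _ _ h1 h2 => rw [BB_add_left]; exact a.add_mem h1 h2
    | smul c y _ h1 => rw [BB_smul_left]; exact a.smul_mem _ h1
  refine sp_mem hpsi hu a ?_ A hA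
  intro u w
  rw [BB_comm]
  have hy : w ∈ Submodule.span K (RR ψ a) := by rw [hspan]; trivial
  induction hy using Submodule.span_induction with
  | mem y hy => rw [BB_comm]; exact hB3 u y hy
  | zero => simp [BB]
  | add y z _ _ h1 h2 => rw [BB_add_left]; exact a.add_mem h1 h2
  | smul c y _ h1 => rw [BB_smul_left]; exact a.smul_mem _ h1

end MT.Ps7
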